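import Mathlib
import Pool.Agent.Lib.Carpet.Defs
import Pool.Agent.Lib.Carpet.Main

/-!
The conformal dimension of the standard Sierpinski carpet is at least `33 / 20`, which is
strictly larger than `1 + log 2 / log 3`.
-/

namespace Pool.Agent.Results.MP_049a2b_an.StrictLowerBound

open Pool.Agent.Lib.Carpet
open scoped ENNReal NNReal

/-- `1 + log 2 / log 3 < 33 / 20 ≤ confdim S` for the standard Sierpinski carpet `S`. -/
theorem result.{v} : ENNReal.ofReal (1 + Real.log 2 / Real.log 3) < (33 / 20 : ℝ≥0∞) ∧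
    (33 / 20 : ℝ≥0∞) ≤ confDim.{0, v} carpet := by
  have e : ((33 / 20 : ℝ≥0) : ℝ≥0∞) = (33 / 20 : ℝ≥0∞) := by
    rw [ENNReal.coe_div (by norm_num)]
    norm_num
  constructor
  · have h := log_bound
    have e2 : (33 / 20 : ℝ≥0∞) = ENNReal.ofReal (33 / 20) := by
      rw [ENNReal.ofReal_div_of_pos (by norm_num)]
      norm_num
    rw [e2]
    exact (ENNReal.ofReal_lt_ofReal_iff (by norm_num)).mpr h
  · refine le_iInf fun Y => le_iInf fun _ => le_iInf fun f => le_iInf fun hf => ?_
    rw [← e]
    exact dimH_ge f hf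

end Pool.Agent.Results.MP_049a2b_an.StrictLowerBound
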